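import Pool.Agent.U124.LP.Bit

/-!
# The random shadow vertex rule is a version of the simplex method which is polynomial for bounded
subdeterminants, with one table of random numbers for all linear programs

Linear programs `max c x`, `A x ≤ b`, `x ≥ 0` with `m + n` constraints. The matrix `A` has imbalance
at most `κ` if in the representation of a row of the system by `n` linearly independent rows of the
system all coefficients are at most `κ` in absolute value. Integer matrices with subdeterminants at
most `Δ` have imbalance at most `Δ`.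

Start at an arbitrary vertex `v` with the start objective `z = ∑ μ_k a_k`, where the `a_k` are `n`
linearly independent tight rows at `v`, and follow the maximisers of `z + t c`, `t ≥ 0`. This is a
path of edges on which `c` increases. We show that it has at most `72 n⁴ κ³` edges with probability
at least `1/2`, if the `μ_k` are independent and uniform on a fine grid in `[1, 2]`; the number `m` of
constraints plays no role, the linear program may be degenerate or unbounded, and every step is
improving (the known algorithms for this class use auxiliary objectives and steps which are not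
improving).

In the bit model this gives a version of the simplex method with a table of `2 L + 1` rows of
`L` random numbers with `7 L + 4` bits: with probability `1 - 2^(-L)` the same table is good for ALL
linear programs of length at most `L` at the same time. So there is a non-uniform (advice depending
on the length only) deterministic version of the simplex method which runs in polynomial time on all
linear programs of polynomially bounded imbalance, for instance with polynomially bounded
subdeterminants.

Proof (library `N477`). A vertex `x` is left in a short time interval `[t, t + ε]` only if `μ` is close to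
the boundary of the cone of `x`, in the direction of one row; the cones are essentially disjoint, and the
volume of the set of these `μ` is estimated by translation. This gives a bound for the mean number
of steps up to the time at which only facets through optimal vertices are left, which has a
polynomial bound in terms of `κ` after a scaling of the objective function. The bit model uses the
polynomial time library `Pool.Agent.NPC`.
-/

set_option autoImplicit false

namespace Pool.Agent.Results.MP_4d246d_lc.BoundedSubdeterminants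

open Pool.Agent.NPC

/-- the linear function `c x` -/
def val {n : ℕ} (c x : Fin n → ℝ) : ℝ := ∑ j, c j * x j

/-- the polyhedron `A x ≤ b`, `x ≥ 0` -/
def Feasible {m n : ℕ} (A : Fin m → Fin n → ℝ) (b : Fin m → ℝ) : Set (Fin n → ℝ) :=
  {x | (∀ i, ∑ j, A i j * x j ≤ b i) ∧ ∀ j, 0 ≤ x j}

/-- `x` maximises the linear function `c` on `P` -/
def Optimal {n : ℕ} (P : Set (Fin n → ℝ)) (c x : Fin n → ℝ) : Prop :=
  x ∈ P ∧ ∀ y ∈ P, val c y ≤ val c x

/-- A pivot of the shadow vertex rule with the start objective `z`: `x` and `y` are vertices of `P`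
joined by an edge on which the objective `c` increases, and no point `u` of `P` with `c x < c u`
has a larger slope `z (u - x) / c (u - x)` than `y`. -/
def ShadowPivot {n : ℕ} (P : Set (Fin n → ℝ)) (c z x y : Fin n → ℝ) : Prop :=
  x ∈ P.extremePoints ℝ ∧ y ∈ P.extremePoints ℝ ∧ IsExposed ℝ P (segment ℝ x y) ∧
    val c x < val c y ∧ ∀ u ∈ P, val c x < val c u →
      val z (u - x) * val c (y - x) ≤ val z (y - x) * val c (u - x)

/-- The shadow vertex rule finds an unbounded edge at `x` in the direction `d`, on which the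
objective `c` increases. -/
def ShadowRay {n : ℕ} (P : Set (Fin n → ℝ)) (c z x d : Fin n → ℝ) : Prop :=
  IsExposed ℝ P {y | ∃ t : ℝ, 0 ≤ t ∧ y = x + t • d} ∧ 0 < val c d ∧
    ∀ u ∈ P, val c x < val c u → val z (u - x) * val c d ≤ val z d * val c (u - x)

/-- `x 0, …, x N` are `N` successive pivots of the shadow vertex rule from the vertex `v` -/
def ShadowRun {n : ℕ} (P : Set (Fin n → ℝ)) (c z v : Fin n → ℝ) (N : ℕ)
    (x : ℕ → Fin n → ℝ) : Prop :=
  x 0 = v ∧ ∀ k < N, ShadowPivot P c z (x k) (x (k + 1))

/-- the `m + n` rows of the system `A x ≤ b`, `-x ≤ 0` -/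
def row {m n : ℕ} (A : Fin m → Fin n → ℝ) : Fin m ⊕ Fin n → Fin n → ℝ :=
  Sum.elim A fun j => -Pi.single j 1

/-- the right hand sides of the system `A x ≤ b`, `-x ≤ 0` -/
def rhs {m n : ℕ} (b : Fin m → ℝ) : Fin m ⊕ Fin n → ℝ := Sum.elim b fun _ => 0

/-- Imbalance at most `κ`: if a row of the system is a linear combination of `n` linearly
independent rows of the system, then the coefficients are at most `κ` in absolute value. -/
def Imbalance {m n : ℕ} (A : Fin m → Fin n → ℝ) (κ : ℝ) : Prop :=
  ∀ (B : Fin n → Fin m ⊕ Fin n) (l : Fin m ⊕ Fin n) (β : Fin n → ℝ),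
    LinearIndependent ℝ (fun k => row A (B k)) → row A l = ∑ k, β k • row A (B k) →
      ∀ k, |β k| ≤ κ

/-- the start objective `∑ (1 + g_k / Q) a_{B k}` -/
noncomputable def start {m n Q : ℕ} (A : Fin m → Fin n → ℝ) (B : Fin n → Fin m ⊕ Fin n)
    (g : Fin n → Fin Q) : Fin n → ℝ := ∑ k, (1 + ((g k : ℕ) : ℝ) / Q) • row A (B k)

/-! ### The bit model -/

/-- rational vectors as real vectors -/
noncomputable def re {n : ℕ} (x : Fin n → ℚ) : Fin n → ℝ := fun j => (x j : ℝ)

/-- rational matrices as real matrices -/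
noncomputable def reM {m n : ℕ} (A : Fin m → Fin n → ℚ) : Fin m → Fin n → ℝ :=
  fun i j => (A i j : ℝ)

/-- the polyhedron `A x ≤ b`, `x ≥ 0` for rational data -/
def polyhedron {m n : ℕ} (A : Fin m → Fin n → ℚ) (b : Fin m → ℚ) : Set (Fin n → ℝ) :=
  Feasible (reM A) (re b)

/-- `x` and `y` are joined by an edge of `P` on which the objective function increases -/
def ImprovingEdge {n : ℕ} (P : Set (Fin n → ℝ)) (c x y : Fin n → ℚ) : Prop :=
  IsExposed ℝ P (segment ℝ (re x) (re y)) ∧ val (re c) (re x) < val (re c) (re y)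

/-- `P` has an unbounded edge at `x`, in the direction `d`, on which the objective function
increases -/
def UnboundedEdge {n : ℕ} (P : Set (Fin n → ℝ)) (c x d : Fin n → ℚ) : Prop :=
  IsExposed ℝ P {z | ∃ t : ℝ, 0 ≤ t ∧ z = re x + t • re d} ∧ 0 < val (re c) (re d)

/-- The vertices `x 0, …, x N` of `P` are a path of improving edges starting at `v`. It ends at a
vertex maximising the objective function (`d = none`), or at a vertex with an unbounded improving
edge in the direction `e` (`d = some e`). -/
def IsSimplexPath {n : ℕ} (P : Set (Fin n → ℝ)) (c v : Fin n → ℚ) (N : ℕ)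
    (x : ℕ → Fin n → ℚ) (d : Option (Fin n → ℚ)) : Prop :=
  x 0 = v ∧ (∀ k ≤ N, re (x k) ∈ Set.extremePoints ℝ P) ∧
    (∀ k < N, ImprovingEdge P c (x k) (x (k + 1))) ∧
    (d = none → Optimal P (re c) (re (x N))) ∧
    ∀ e, d = some e → UnboundedEdge P c (x N) e

/-- the linear program `A`, `b`, `c` as a bit string -/
def program {m n : ℕ} (A : Fin m → Fin n → ℚ) (b : Fin m → ℚ) (c : Fin n → ℚ) : List Bool :=
  bits (List.ofFn fun i => List.ofFn (A i), List.ofFn b, List.ofFn c)

/-- the linear program `A`, `b`, `c` with its start vertex `v` as a bit string -/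
def input {m n : ℕ} (A : Fin m → Fin n → ℚ) (b : Fin m → ℚ) (c v : Fin n → ℚ) : List Bool :=
  bits (List.ofFn fun i => List.ofFn (A i), List.ofFn b, List.ofFn c, List.ofFn v)

/-- the table `W` of numbers, and the linear program with its start vertex, as a bit string -/
def inputWith {m n : ℕ} (W : List (List ℕ)) (A : Fin m → Fin n → ℚ) (b : Fin m → ℚ)
    (c v : Fin n → ℚ) : List Bool :=
  bits (W, List.ofFn fun i => List.ofFn (A i), List.ofFn b, List.ofFn c, List.ofFn v)

/-- the number `T` in unary, the table `W` of numbers, and the linear program with its start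
vertex, as a bit string -/
def query {m n : ℕ} (T : ℕ) (W : List (List ℕ)) (A : Fin m → Fin n → ℚ) (b : Fin m → ℚ)
    (c v : Fin n → ℚ) : List Bool :=
  bits (List.replicate T (), W,
    List.ofFn fun i => List.ofFn (A i), List.ofFn b, List.ofFn c, List.ofFn v)

/-- the answer `x 0, …, x N` and `d` as a bit string -/
def answer {n : ℕ} (N : ℕ) (x : ℕ → Fin n → ℚ) (d : Option (Fin n → ℚ)) : List Bool :=
  bits (some ((List.range (N + 1)).map (fun k => List.ofFn (x k)), d.map List.ofFn) :
    Option (List (List ℚ) × Option (List ℚ)))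

/-- the answer that the path is not finished -/
def noAnswer : List Bool := bits (none : Option (List (List ℚ) × Option (List ℚ)))

/-- the tables with `r` rows of `L` numbers with `7 L + 4` bits -/
abbrev Table (r L : ℕ) : Type := Fin r → Fin L → Fin (2 ^ (7 * L + 3))

/-- the numbers in a table -/
def Table.list {r L : ℕ} (ω : Table r L) : List (List ℕ) :=
  List.ofFn fun i => List.ofFn fun j => 2 ^ (7 * L + 3) + (ω i j : ℕ)

/-! ### Translation to the library -/

theorem feasible_eq {m n : ℕ} (A : Fin m → Fin n → ℝ) (b : Fin m → ℝ) :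
    Feasible A b = N477.MD.Poly (N477.RS.arow A) (N477.RS.arhs b) := by
  ext x
  exact N477.RS.mem_arow.symm

theorem start_eq {m n Q : ℕ} (A : Fin m → Fin n → ℝ) (B : Fin n → Fin m ⊕ Fin n)
    (g : Fin n → Fin Q) : start A B g = N477.MD.zz (N477.RS.arow A) B 0 (N477.RS.gpt Q g) := by
  unfold start N477.MD.zz N477.RS.gpt
  refine Finset.sum_congr rfl fun k _ => ?_
  rw [Pi.zero_apply, zero_add]
  rfl

theorem path_of {m n : ℕ} {A : Fin m → Fin n → ℚ} {b : Fin m → ℚ} {c v : Fin n → ℚ} {N : ℕ}
    {x : ℕ → Fin n → ℚ} {d : Option (Fin n → ℚ)}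
    (h : Y644.QS.IsSimplexPath (Y644.QS.polyhedron A b) c v N x d) :
    IsSimplexPath (polyhedron A b) c v N x d :=
  ⟨h.1, h.2.1, h.2.2.1, fun hd => ⟨(h.2.1 N le_rfl).1, h.2.2.2.1 hd⟩, h.2.2.2.2⟩

theorem valid_of {m n : ℕ} {A : Fin m → Fin n → ℚ} {b : Fin m → ℚ} {c v : Fin n → ℚ}
    (hv : re v ∈ Set.extremePoints ℝ (polyhedron A b)) {κ : ℝ} (hκ : Imbalance (reM A) κ)
    {T : ℕ} (hT : 72 * (n : ℝ) ^ 4 * κ ^ 3 ≤ T) (hT1 : 1 ≤ T) :
    N477.RS.Valid (Y644.QS.inp A b c v) T :=
  ⟨m, n, A, b, c, v, κ, rfl, hv, hκ, hT, hT1⟩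

/-- the algorithm -/
def alg (s : List Bool) : List Bool := bits (NPC.N477RS.solve s)

theorem alg_query {m n : ℕ} (T : ℕ) (W : List (List ℕ)) (A : Fin m → Fin n → ℚ) (b : Fin m → ℚ)
    (c v : Fin n → ℚ) :
    alg (query T W A b c v) = bits (N477.RS.runs (Y644.QS.inp A b c v) T W) := by
  unfold alg
  rw [← NPC.N477RS.solve_bits T W (Y644.QS.inp A b c v)]
  rfl

theorem bits_inj {α : Type} [TEnc α] [TDec α] {x y : α} (h : bits x = bits y) : x = y := by
  have h1 := congrArg (unbits α) h
  rw [unbits_bits, unbits_bits, Option.some.injEq] at h1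
  exact h1

theorem alg_none {m n : ℕ} {T : ℕ} {W : List (List ℕ)} {A : Fin m → Fin n → ℚ} {b : Fin m → ℚ}
    {c v : Fin n → ℚ} :
    alg (query T W A b c v) = noAnswer ↔ N477.RS.runs (Y644.QS.inp A b c v) T W = none := by
  rw [alg_query]
  refine ⟨fun h => bits_inj h, fun h => by rw [h]; rfl⟩

open Classical in
/-- **The random shadow vertex rule: one table of random numbers for all linear programs.** -/
theorem result :
    -- (1) arbitrary real data
    (∀ (m n : ℕ) (A : Fin m → Fin n → ℝ) (b : Fin m → ℝ) (c : Fin n → ℝ) (κ : ℝ),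
      Imbalance A κ → ∀ v ∈ (Feasible A b).extremePoints ℝ,
      -- for at least half of the start objectives every run has fewer than `T` pivots
      (∃ B : Fin n → Fin m ⊕ Fin n, LinearIndependent ℝ (fun k => row A (B k)) ∧
        (∀ k, val (row A (B k)) v = rhs b (B k)) ∧
        ∀ T Q : ℕ, 1 ≤ T → 72 * (n : ℝ) ^ 4 * κ ^ 3 ≤ T →
          4 * ((n + 1) * ((2 ^ (m + n + n)) ^ 2 + (2 ^ (m + n + n)) ^ 3)) ≤ Q →
          (∀ g : Fin n → Fin Q, Optimal (Feasible A b) (start A B g) v) ∧
          2 * (Finset.univ.filter (fun g : Fin n → Fin Q => ∃ (N : ℕ) (x : ℕ → Fin n → ℝ),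
            T ≤ N ∧ ShadowRun (Feasible A b) c (start A B g) v N x)).card ≤ Q ^ n) ∧
      -- some run reaches an optimal vertex or an unbounded edge with fewer than `T` pivots
      ∀ T : ℕ, 1 ≤ T → 72 * (n : ℝ) ^ 4 * κ ^ 3 ≤ T →
        ∃ z, Optimal (Feasible A b) z v ∧ ∃ (N : ℕ) (x : ℕ → Fin n → ℝ), N < T ∧
          ShadowRun (Feasible A b) c z v N x ∧
          (Optimal (Feasible A b) c (x N) ∨ ∃ d, ShadowRay (Feasible A b) c z (x N) d)) ∧
    -- (2) the bit model: a version of the simplex method which uses a table of numbers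
    (∃ g : List Bool → List Bool, PolyTime g ∧
      (∀ (m n : ℕ) (A : Fin m → Fin n → ℚ) (b : Fin m → ℚ) (c v : Fin n → ℚ),
        re v ∈ Set.extremePoints ℝ (polyhedron A b) →
        -- the answers are always correct
        (∀ (T : ℕ) (W : List (List ℕ)), g (query T W A b c v) = noAnswer ∨
          ∃ (N : ℕ) (x : ℕ → Fin n → ℚ) (d : Option (Fin n → ℚ)),
            g (query T W A b c v) = answer N x d ∧
            IsSimplexPath (polyhedron A b) c v N x d ∧ N ≤ T) ∧
        -- with every table there is an answer for all large `T`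
        (∀ (r L T : ℕ) (ω : Table r L), 0 < r → n ≤ L → 2 ^ (m + n) ≤ T →
          g (query T ω.list A b c v) ≠ noAnswer) ∧
        -- each row of random numbers gives an answer with probability at least one half
        ∀ (L T : ℕ) (κ : ℝ), (input A b c v).length ≤ L → Imbalance (reM A) κ →
          1 ≤ T → 72 * (n : ℝ) ^ 4 * κ ^ 3 ≤ T →
          2 * (Finset.univ.filter (fun ω : Table 1 L =>
            g (query T ω.list A b c v) = noAnswer)).card ≤ Fintype.card (Table 1 L)) ∧
      -- one table for all linear programs of length at most `L`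
      ∀ L : ℕ, 2 ^ L * (Finset.univ.filter (fun ω : Table (2 * L + 1) L =>
        ∃ (m n : ℕ) (A : Fin m → Fin n → ℚ) (b : Fin m → ℚ) (c v : Fin n → ℚ) (κ : ℝ) (T : ℕ),
          re v ∈ Set.extremePoints ℝ (polyhedron A b) ∧ (input A b c v).length ≤ L ∧
          Imbalance (reM A) κ ∧ 1 ≤ T ∧ 72 * (n : ℝ) ^ 4 * κ ^ 3 ≤ T ∧
          g (query T ω.list A b c v) = noAnswer)).card ≤ Fintype.card (Table (2 * L + 1) L)) ∧
    -- (3) a non-uniform polynomial time version for polynomially bounded imbalance
    (∃ (a : ℕ → List (List ℕ)) (p : Polynomial ℕ), (∀ L, (bits (a L)).length ≤ p.eval L) ∧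
      ∀ C : ℕ, ∃ h : List Bool → List Bool, PolyTime h ∧
        ∀ (L m n : ℕ) (A : Fin m → Fin n → ℚ) (b : Fin m → ℚ) (c v : Fin n → ℚ) (κ : ℝ),
          re v ∈ Set.extremePoints ℝ (polyhedron A b) → (input A b c v).length ≤ L →
          Imbalance (reM A) κ → 72 * (n : ℝ) ^ 4 * κ ^ 3 ≤ ((input A b c v).length : ℝ) ^ C →
          ∃ (N : ℕ) (x : ℕ → Fin n → ℚ) (d : Option (Fin n → ℚ)),
            h (inputWith (a L) A b c v) = answer N x d ∧
            IsSimplexPath (polyhedron A b) c v N x d ∧ N ≤ (input A b c v).length ^ C) ∧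
    -- (4) integer matrices with subdeterminants at most `Δ`
    (∀ (m n : ℕ) (A : Matrix (Fin m) (Fin n) ℤ) (Δ : ℤ),
      (∀ (k : ℕ) (f : Fin k → Fin m) (g : Fin k → Fin n), |(A.submatrix f g).det| ≤ Δ) →
      Imbalance (fun i j => (A i j : ℝ)) (Δ : ℝ)) ∧
    -- the start vertex is not longer than a polynomial in the length of the program
    ∃ q : Polynomial ℕ, ∀ (m n : ℕ) (A : Fin m → Fin n → ℚ) (b : Fin m → ℚ) (c v : Fin n → ℚ),
      re v ∈ Set.extremePoints ℝ (polyhedron A b) →
      (input A b c v).length ≤ q.eval (program A b c).length := by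
  refine ⟨fun m n A b c κ hκ v hv => ?_, ⟨alg, NPC.N477RS.poly_solve, ?_, fun L => ?_⟩,
    ⟨U124.LP.advice, U124.LP.advP, fun L => ?_, fun C => ⟨fun s => bits (NPC.U124LP.solveA C s),
      NPC.U124LP.poly_solveA C, fun L m n A b c v κ hv hL hκ hC => ?_⟩⟩,
    fun m n A Δ h => U124.LP.bal_int A h, NPC.Y644.exists_vertex_bound⟩
  · rw [feasible_eq] at hv ⊢
    obtain ⟨B, hB, hBt⟩ := U124.LP.basis_at hv
    refine ⟨⟨B, hB, hBt, fun T Q hT1 hT hQ => ⟨fun g => ?_, ?_⟩⟩, fun T hT1 hT => ?_⟩
    · rw [start_eq]
      exact U124.LP.start_opt hv.1 hBt g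
    · have h := U124.LP.half_good hκ hv hB hBt c hT hT1 hQ
      simp only [start_eq]
      convert h using 6
      exact Iff.rfl
    · obtain ⟨z, hz, N, x, hN, h0, hx, hend⟩ := U124.LP.short_path hκ hv c hT hT1
      exact ⟨z, hz, N, x, hN, ⟨h0, hx⟩, hend⟩
  · intro m n A b c v hv
    refine ⟨fun T W => ?_, fun r L T ω hr hL hT => ?_, fun L T κ hL hκ hT1 hT => ?_⟩
    · rcases U124.LP.runs_sound (c := c) hv T W with h | ⟨N, x, d, h1, h2, h3⟩
      · exact Or.inl (alg_none.2 h)
      · exact Or.inr ⟨N, x, d, by rw [alg_query, h1]; rfl, path_of h2, h3⟩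
    · rw [Ne, alg_none]
      exact U124.LP.runs_large (c := c) hv hr hL ω hT
    · have hlen : (input A b c v).length = sz (Y644.QS.inp A b c v) := bits_length _
      have h := N477.RS.card_one (valid_of (c := c) hv hκ hT hT1) (hlen ▸ hL)
      have e := U124.LP.row_count (Y644.QS.inp A b c v) T L
      have hc := U124.LP.card_table 1 L
      change 2 * (Finset.univ.filter (fun ω : Fin 1 → Fin L → Fin (2 ^ N477.RS.kb L) =>
        alg (query T (N477.RS.wtab ω) A b c v) = noAnswer)).card ≤
          Fintype.card (Fin 1 → Fin L → Fin (2 ^ N477.RS.kb L))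
      simp only [alg_none]
      rw [hc, pow_one, e]
      exact h
  · have h := N477.RS.card_all L
    have hc := U124.LP.card_table (2 * L + 1) L
    change 2 ^ L * (Finset.univ.filter
      (fun ω : Fin (2 * L + 1) → Fin L → Fin (2 ^ N477.RS.kb L) =>
        ∃ (m n : ℕ) (A : Fin m → Fin n → ℚ) (b : Fin m → ℚ) (c v : Fin n → ℚ) (κ : ℝ) (T : ℕ),
          re v ∈ Set.extremePoints ℝ (polyhedron A b) ∧ (input A b c v).length ≤ L ∧
          Imbalance (reM A) κ ∧ 1 ≤ T ∧ 72 * (n : ℝ) ^ 4 * κ ^ 3 ≤ T ∧
          alg (query T (N477.RS.wtab ω) A b c v) = noAnswer)).card ≤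
      Fintype.card (Fin (2 * L + 1) → Fin L → Fin (2 ^ N477.RS.kb L))
    rw [hc]
    refine (Nat.mul_le_mul_left _ (Finset.card_le_card ?_)).trans h
    intro ω hω
    obtain ⟨-, m, n, A, b, c, v, κ, T, hv, hL, hκ, hT1, hT, hno⟩ := Finset.mem_filter.1 hω
    have hlen : (input A b c v).length = sz (Y644.QS.inp A b c v) := bits_length _
    exact Finset.mem_filter.2
      ⟨Finset.mem_univ _, _, T, valid_of (c := c) hv hκ hT hT1, hlen ▸ hL, alg_none.1 hno⟩
  · rw [bits_length]
    exact U124.LP.sz_advice L
  · have hlen : (input A b c v).length = sz (Y644.QS.inp A b c v) := bits_length _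
    rw [hlen] at hL hC ⊢
    have hval : N477.RS.Valid (Y644.QS.inp A b c v) (sz (Y644.QS.inp A b c v) ^ C) := by
      refine valid_of (c := c) hv hκ ?_ ?_
      · rw [Nat.cast_pow]
        exact hC
      · exact Nat.one_le_pow _ _ (sz_pos _)
    have hne := U124.LP.advice_good L _ _ hval hL
    rcases U124.LP.runs_sound (c := c) hv (sz (Y644.QS.inp A b c v) ^ C) (U124.LP.advice L) with
      h | ⟨N, x, d, h1, h2, h3⟩
    · exact absurd h hne
    · refine ⟨N, x, d, ?_, path_of h2, h3⟩
      have h4 := NPC.U124LP.solveA_bits C (U124.LP.advice L) (Y644.QS.inp A b c v)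
      show bits (NPC.U124LP.solveA C (bits (U124.LP.advice L, Y644.QS.inp A b c v))) = _
      rw [h4, h1]
      rfl

end Pool.Agent.Results.MP_4d246d_lc.BoundedSubdeterminants
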