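import Pool.Agent.U6.BL.Cor
import Pool.Agent.U6.BL.Cube
set_option autoImplicit false

/-!
# A pivot rule for hidden right hand sides and objective functions

Linear programs `max c q`, `A q ≤ b` with `m` constraints and `n` variables. Short improving paths
do not by themselves give a rule that finds them. Here the rule knows only the matrix `A` (and
convex sets which contain `b` and `c`, for instance the sets of all vectors). It does not know `b`
and `c`; at every vertex it sees which constraints are tight and which of them can be left along an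
improving edge, and it remembers what it has seen. We show that for every matrix there is a
deterministic rule of this kind which makes at most `10 m ^ 3 H` pivots, on all nondegenerate linear
programs with this matrix, where `H` is the maximum over all right hand sides and objectives of the
length of a shortest improving path to the optimum. So the number of pivots which are needed without
knowledge of the data is the monotone diameter, up to the factor `10 m ^ 3`. (There is no bound on
the computing time between the pivots.) In particular there is such a rule with at most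

* `360 m ^ 3 n ^ 5 Δ ^ 3` pivots if `A` is an integer matrix with minors at most `Δ` (for instance
  totally unimodular) and the feasible regions are bounded;
* `10 m ^ 3 n` pivots on combinatorial cubes; so `80 n ^ 4` pivots if `m = 2 n`. For comparison:
  on abstract cubes (`n`-cubes with an abstract objective function) every rule which sees the
  same and the objective values needs `2 ^ (n ^ (1/2 - o(1)))` pivots (starting result
  `SquareRootExponent`), although `n` improving pivots suffice.

Proof. For fixed `A` the combinatorial type of the linear program is determined by the signs of at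
most `m 2 ^ m` linear functionals of `(b, c)`, so there are at most `2 ^ (2 m (m + n))` types
(Sauer-Shelah). Given a set of `N` types which are still possible, Helly's theorem gives a
linear program with matrix `A` such that for each of the functionals at least `N / (m + n + 1)` of the
types agree with its sign. The rule follows a shortest path of this linear program until the first
observation which contradicts it; this observation refutes `N / (m + n + 1)` types. If there is no
contradiction then the vertex at the end is optimal.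
-/

namespace Pool.Agent.Results.MP_4d246d_lc.HiddenData

open Finset Matrix Pool.Agent.N597.QP

/-- There is an improving path of at most `H` edges from the vertex `q₀` to an optimal vertex of
`max c q`, `A q ≤ b`. -/
def ShortPath {m n : ℕ} (A : Fin m → Fin n → ℝ) (b : Fin m → ℝ) (c q₀ : Fin n → ℝ) (H : ℕ) : Prop :=
  ∃ (T : ℕ) (q : ℕ → Fin n → ℝ), T ≤ H ∧ q 0 = q₀ ∧ (∀ t ≤ T, IsVertex A b (q t)) ∧
    (∀ t < T, c ⬝ᵥ q t < c ⬝ᵥ q (t + 1) ∧
      ∃ r, (tight A b (q t)).erase r ⊆ tight A b (q (t + 1))) ∧
    ∀ p, Feas A b p → c ⬝ᵥ p ≤ c ⬝ᵥ q T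

/-- The rule reaches an optimal vertex from `q₀` by at most `N` improving pivots: `q 0, …, q T` are
vertices, and `q (t + 1)` has all tight constraints of `q t` except the one which the rule names;
the rule sees the list of the pairs (tight constraints, constraints which can be left along an
improving edge) at the vertices visited so far. -/
def Solves {m n : ℕ} (rule : List (Finset (Fin m) × Finset (Fin m)) → Fin m)
    (A : Fin m → Fin n → ℝ) (b : Fin m → ℝ) (c q₀ : Fin n → ℝ) (N : ℕ) : Prop :=
  ∃ (T : ℕ) (q : ℕ → Fin n → ℝ), T ≤ N ∧ q 0 = q₀ ∧ (∀ t ≤ T, IsVertex A b (q t)) ∧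
    (∀ t < T, c ⬝ᵥ q t < c ⬝ᵥ q (t + 1) ∧ rule (seen A b c q t) ∈ improv A b c (q t) ∧
      (tight A b (q t)).erase (rule (seen A b c q t)) ⊆ tight A b (q (t + 1))) ∧
    ∀ p, Feas A b p → c ⬝ᵥ p ≤ c ⬝ᵥ q T

/-- `A q ≤ b` is a combinatorial cube with the opposite facets `ρ (i, false)` and `ρ (i, true)`:
every choice of one facet of each pair is the set of the tight constraints of a vertex. -/
def Cube {m n : ℕ} (A : Fin m → Fin n → ℝ) (b : Fin m → ℝ) (ρ : Fin n × Bool → Fin m) : Prop :=
  ∀ s : Fin n → Bool, ∃ q, IsVertex A b q ∧ tight A b q = univ.image fun i => ρ (i, s i)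

/-- **A pivot rule for hidden right hand sides and objective functions.**
1. Let `𝓑` be a convex set of right hand sides in which the nondegenerate ones are dense, and `𝓒` a
convex set of objective functions, bounded above on the feasible regions. If there are improving
paths of at most `H` edges from all vertices to the optimum, for all nondegenerate `b ∈ 𝓑` and all
`c ∈ 𝓒`, then one rule makes at most `10 m ^ 3 H` pivots on all these linear programs.
2. The nondegenerate right hand sides are dense in the set of all right hand sides.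
3. For integer matrices whose minors of order `n` are at most `Δ`, with bounded feasible regions,
there is a rule with at most `360 m ^ 3 n ^ 5 Δ ^ 3` pivots for all nondegenerate `b` and all `c`.
4. There is a rule with at most `10 m ^ 3 n` pivots for all `b` for which the polyhedron is a
combinatorial cube with given pairs of opposite facets, and all `c`. -/
theorem result :
    (∀ (m n : ℕ), 1 ≤ m → ∀ (A : Fin m → Fin n → ℝ) (𝓑 : Set (Fin m → ℝ))
      (𝓒 : Set (Fin n → ℝ)) (H : ℕ), Convex ℝ 𝓑 → Convex ℝ 𝓒 →
      𝓑 ⊆ closure {b | b ∈ 𝓑 ∧ Nondeg A b} →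
      (∀ b ∈ 𝓑, ∀ c ∈ 𝓒, ∃ μ, ∀ p, Feas A b p → c ⬝ᵥ p ≤ μ) →
      (∀ b ∈ 𝓑, Nondeg A b → ∀ c ∈ 𝓒, ∀ q₀, IsVertex A b q₀ → ShortPath A b c q₀ H) →
      ∃ rule : List (Finset (Fin m) × Finset (Fin m)) → Fin m,
        ∀ b ∈ 𝓑, Nondeg A b → ∀ c ∈ 𝓒, ∀ q₀, IsVertex A b q₀ →
          Solves rule A b c q₀ (10 * m ^ 3 * H)) ∧
    (∀ (m n : ℕ) (A : Fin m → Fin n → ℝ), Dense {b : Fin m → ℝ | Nondeg A b}) ∧
    (∀ (m n Δ : ℕ), 1 ≤ m → ∀ Z : Fin m → Fin n → ℤ,
      (∀ e : Fin n → Fin m, |(Matrix.of fun i => Z (e i)).det| ≤ (Δ : ℤ)) →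
      (∀ d : Fin n → ℝ, (∀ i, ∑ j, (Z i j : ℝ) * d j ≤ 0) → d = 0) →
      ∃ rule : List (Finset (Fin m) × Finset (Fin m)) → Fin m,
        ∀ b : Fin m → ℝ, Nondeg (fun i j => (Z i j : ℝ)) b → ∀ c q₀ : Fin n → ℝ,
          IsVertex (fun i j => (Z i j : ℝ)) b q₀ →
          Solves rule (fun i j => (Z i j : ℝ)) b c q₀ (360 * m ^ 3 * n ^ 5 * Δ ^ 3)) ∧
    (∀ (m n : ℕ), 1 ≤ m → ∀ (A : Fin m → Fin n → ℝ) (ρ : Fin n × Bool → Fin m),
      Function.Injective ρ → ∃ rule : List (Finset (Fin m) × Finset (Fin m)) → Fin m,
        ∀ b : Fin m → ℝ, Cube A b ρ → Nondeg A b ∧ ∀ c q₀ : Fin n → ℝ, IsVertex A b q₀ →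
          Solves rule A b c q₀ (10 * m ^ 3 * n)) := by
  refine ⟨?_, ?_, ?_, ?_⟩
  · intro m n hm A 𝓑 𝓒 H h1 h2 h3 h4 h5
    exact U6.BL.blind hm A 𝓑 𝓒 H h1 h2 h3 h4 h5
  · intro m n A
    exact U6.BL.dense_nondeg A
  · intro m n Δ hm Z hZ hrec
    set A : Fin m → Fin n → ℝ := fun i j => (Z i j : ℝ) with hA
    have hrec' : ∀ d : Fin n → ℝ, (∀ i, A i ⬝ᵥ d ≤ 0) → d = 0 := hrec
    have hbal := U6.BL.bal_of_minors Z hZ
    have hL : 10 * m ^ 3 * (n * N477.MD.Lc n (Δ : ℝ)) = 360 * m ^ 3 * n ^ 5 * Δ ^ 3 := by
      have h1 : N477.MD.Lc n (Δ : ℝ) = 36 * n ^ 4 * Δ ^ 3 := by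
        unfold N477.MD.Lc
        have e : (36 * (n : ℝ) ^ 4 * (Δ : ℝ) ^ 3) = ((36 * n ^ 4 * Δ ^ 3 : ℕ) : ℝ) := by
          push_cast; ring
        rw [e, Nat.floor_natCast]
      rw [h1]
      ring
    obtain ⟨rule, hrule⟩ := U6.BL.blind hm A Set.univ Set.univ (n * N477.MD.Lc n (Δ : ℝ))
      convex_univ convex_univ (by
        intro b _
        have h1 := (U6.BL.dense_nondeg A) b
        simpa using h1)
      (by
        intro b _ c _
        obtain ⟨M, hM⟩ := (U6.BL.isCompact_poly hrec' b).bddAbove_image
          (N477.MD.continuous_dot c).continuousOn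
        exact ⟨M, fun p hp => hM ⟨p, hp, rfl⟩⟩)
      (fun b _ hN c _ q₀ hq₀ => U6.BL.bal_path hrec' hbal hN c hq₀)
    rw [hL] at hrule
    exact ⟨rule, fun b hb c q₀ hq₀ => hrule b (Set.mem_univ _) hb c (Set.mem_univ _) q₀ hq₀⟩
  · intro m n hm A ρ hρ
    obtain ⟨rule, hrule⟩ := U6.BL.blind hm A {b | U6.BL.Cube A b ρ} Set.univ n
      (U6.BL.convex_cube A ρ) convex_univ
      (fun b hb => subset_closure ⟨hb, U6.BL.cube_nondeg hρ hb⟩)
      (by
        intro b hb c _
        obtain ⟨x, hx⟩ : ∃ x : (Fin n → Bool) → Fin n → ℝ, ∀ s, IsVertex A b (x s) ∧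
            tight A b (x s) = univ.image fun i => ρ (i, s i) := by
          choose x hx using hb
          exact ⟨x, hx⟩
        obtain ⟨s, hs⟩ := U6.BL.cube_opt hρ hb hx c
        exact ⟨_, hs⟩)
      (fun b hb _ c _ q₀ hq₀ => U6.BL.cube_path hρ hb c hq₀)
    exact ⟨rule, fun b hb => ⟨U6.BL.cube_nondeg hρ hb, fun c q₀ hq₀ =>
      hrule b hb (U6.BL.cube_nondeg hρ hb) c (Set.mem_univ _) q₀ hq₀⟩⟩

end Pool.Agent.Results.MP_4d246d_lc.HiddenData
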