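import Pool.Agent.U426.PivBound
set_option autoImplicit false

/-!
# A deterministic path-following pivot rule with `O(11 ^ (n / 5))` steps on abstract cubes

`flip x i` is the neighbour of the vertex `x` of the `n`-cube in direction `i`, `improving f x` the set of
directions `i` with `f x < f (flip x i)`, and `seen f w t` the list of pairs (visited vertex, its improving
directions) for `w t, …, w 0`. The rule sees only this list, not the objective values.

Proof. (1) *Dead sets.* Let `f` have one local maximum on every face. Every pattern of improving directions
occurs exactly once on a face (`AOF.pattern`), so at a visited vertex `w` with improving directions `S` the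
face through `w` spanned by `S` has only vertices that are at least as high as `w`, and the face spanned by
the other directions only vertices that are at most as high. The rule has to win a game against an adversary
who names `S` at every visited vertex such that the first face avoids the union `D` of the earlier faces of
the second kind (`Win`).

(2) *Travelling* (`travel`). Let the directions be split into `k` outer and `m` inner ones, and let `t` moves be
enough on the `m`-cube. For every outer vertex `g` the rule can, within `k + t` moves and from everywhere,
reach a vertex at which no inner direction and no outer direction towards `g` is improving: it moves towards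
`g` when it can; when it cannot, the new dead face contains the same inner face in all fibres between the
present one and `g`, so the strategy for the inner cube makes one step for all of these fibres at once.
After that the fibres over the whole face `{x = g on S}` are dead.

(3) So the rule may name the fibres it wants to see as if it could jump: `T (k + m) + 1 ≤ q (T m + k + 1)`,
where `q` is the number of rounds of the game `Qry` on the subsets of the `k`-cube (`Solv.prod`).

(4) For `k = 5` eleven rounds are enough: 72 positions up to symmetry and inclusion, checked by the kernel
(`qry_five`). Hence `T (m + 5) + 1 ≤ 11 (T m + 6)`.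
-/

namespace Pool.Agent.Results.MP_4d246d_lc.PathFollowingUpperBound

open Finset Pool.Agent.U426.Piv

/-- **A deterministic path-following rule with at most `7 * 11 ^ (n / 5)` steps on abstract cubes.** There is
a rule which sees the list of pairs (visited vertex, its set of improving directions), the current one first,
and names an improving direction, such that the following holds for every `f` with exactly one local maximum
on every face of the `n`-cube: from every start vertex the path of the rule reaches the global maximum of `f`
after some number `L` of steps with `L + 1 ≤ 7 * 11 ^ (n / 5)`, that is `(L + 1) ^ 5 ≤ 7 ^ 5 * 11 ^ n`. -/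
theorem result (n : ℕ) (hn : 0 < n) :
    ∃ rule : List ((Fin n → Bool) × Finset (Fin n)) → Fin n,
      (∀ (x : Fin n → Bool) (S : Finset (Fin n)) (l : List ((Fin n → Bool) × Finset (Fin n))),
        S.Nonempty → rule ((x, S) :: l) ∈ S) ∧
      ∀ f : (Fin n → Bool) → ℝ,
        (∀ (F : Finset (Fin n)) (x : Fin n → Bool), ∃! y : Fin n → Bool,
          (∀ i, i ∉ F → y i = x i) ∧ ∀ i ∈ F, f (flip y i) < f y) →
        ∀ w : ℕ → (Fin n → Bool),
          (∀ t, (improving f (w t)).Nonempty → w (t + 1) = flip (w t) (rule (seen f w t))) →
          ∃ L : ℕ, (L + 1) ^ 5 ≤ 7 ^ 5 * 11 ^ n ∧ (∀ t < L, (improving f (w t)).Nonempty) ∧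
            improving f (w L) = ∅ ∧ ∀ x, f x ≤ f (w L) := by
  obtain ⟨T, hT, hb⟩ := solv_bound n
  refine ⟨rule ⟨0, hn⟩, fun x S l hS => rule_mem _ x S l hS, fun f hf w hw => ?_⟩
  obtain ⟨L, h1, h2, h3, h4⟩ := run ⟨0, hn⟩ hT hf w hw
  exact ⟨L, (Nat.pow_le_pow_left (by omega) 5).trans hb, h2, h3, h4⟩

end Pool.Agent.Results.MP_4d246d_lc.PathFollowingUpperBound
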