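import Pool.Agent.U17.PP.Main

/-!
# The simplex method on planar programs with coefficients 0, 1, -1

A *planar program* (`Planar`) is a linear program `max c z`, `A z = b`, `z ≥ 0`, where each equation
is written as two opposite inequalities, all coefficients are `0`, `1` or `-1`, the right side is a
unit vector, the objective function is the difference `z_p - z_q` of two variables, and the
variables and the equations can be placed on different points of the square lattice `ℤ²` such that
an equation contains only variables at neighbouring lattice points. So the graph in which each
equation is joined to its variables is a subgraph of the square lattice, in particular it is planar,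
and every equation has at most four variables and every variable is in at most four equations.
(In our programs these numbers are at most three.) Linear programs with such coefficients are solved
in strongly polynomial time by Tardos's algorithm, which is not a simplex method.

We show that the polyhedra of all linear programs are polyhedra of planar programs, up to
affine isomorphisms which respect the objective function, and so all vertices, edges and improving
paths. This is computed in polynomial time, and so the problem for all linear programs is
equivalent to the problem for planar programs.

Proof. Each variable `x_l` is doubled again and again, the columns of a large matrix of signs are the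
multiples `2 ^ k x_l`. A closed row of this matrix is an equation, an open row is an inequality
(`Pool/Agent/U17/PP/Sgn.lean`). The matrix is then laid out in the plane: the columns are wires
which transport the variables, the rows are wires which transport partial sums (they are
nonnegative, since every row starts with the number `2 ^ B (1 + ∑ x_l)`), and where a column with
the value `y` crosses a row with the value `t`, there is an additional variable `c = t + y` at the
crossing, and the two wires leave with the values `y = c - t` and `t = c - y`; if the entry of the
sign matrix is `s = ± 1` then `c = t - s y` and the wires leave with the values `s (t - c)` and `c`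
(`Pool/Agent/U17/PP/Lay.lean`).
-/

set_option autoImplicit false

namespace Pool.Agent.Results.MP_4d246d_lc.PlanarPrograms

open Pool.Agent.NPC Pool.Agent.U17.PP

/-- **Planar programs and the simplex method.**

1. Let `A`, `b`, `c` be integral with absolute values less than `2 ^ B`, with `m` rows and `n`
   columns, and let `G = (n + 1) (B + 1)`. There is a planar program `A'`, `b'`, `c'` with at most
   `6 (m + 2 G + 4) (G + 1)` variables and an injective affine map which maps the polyhedron
   `{x | A x ≤ b, x ≥ 0}` onto the polyhedron `{z | A' z ≤ b', z ≥ 0}`, such that corresponding
   points have the same value of the objective function.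
2. Let `C` be any class of rational linear programs which contains the planar programs. There is a
   version of the simplex method for the linear programs in `C` which runs in polynomial time iff
   there is a version of the simplex method for all linear programs which runs in polynomial
   time. -/
theorem result :
    (∀ (m n B : ℕ) (A : Fin m → Fin n → ℤ) (b : Fin m → ℤ) (c : Fin n → ℤ),
      (∀ i j, |A i j| < 2 ^ B) → (∀ i, |b i| < 2 ^ B) → (∀ j, |c j| < 2 ^ B) →
      ∃ (M N : ℕ) (A' : Fin M → Fin N → ℚ) (b' : Fin M → ℚ) (c' : Fin N → ℚ)
        (Φ : (Fin n → ℝ) →ᵃ[ℝ] (Fin N → ℝ)), Planar M N A' b' c' ∧
        M ≤ 12 * (m + 2 * ((n + 1) * (B + 1)) + 4) * ((n + 1) * (B + 1) + 1) + 2 ∧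
        N ≤ 6 * (m + 2 * ((n + 1) * (B + 1)) + 4) * ((n + 1) * (B + 1) + 1) ∧
        Function.Injective Φ ∧
        Φ '' polyhedron (fun i j => (A i j : ℚ)) (fun i => (b i : ℚ)) = polyhedron A' b' ∧
        ∀ x, obj c' (Φ x) = obj (fun j => (c j : ℚ)) x) ∧
    (∀ C : ∀ m n : ℕ, (Fin m → Fin n → ℚ) → (Fin m → ℚ) → (Fin n → ℚ) → Prop,
      (∀ m n A b c, Planar m n A b c → C m n A b c) →
        ((∃ f : List Bool → List Bool, PolyTime f ∧ Version C f) ↔
          ∃ f : List Bool → List Bool, PolyTime f ∧ Version (fun _ _ _ _ _ => True) f)) :=
  ⟨fun _ _ B A b c hA hb hc => universal A b c B hA hb hc, fun _ hC => planar_enough hC⟩

end Pool.Agent.Results.MP_4d246d_lc.PlanarPrograms
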